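import Pool.Agent.U458.TI.Cyclic
import Pool.Agent.N584.TI.Final

/-!
# Triples of integers and quadruples of integers
-/

set_option autoImplicit false

namespace Pool.Agent.U458.TI

open Finset Pool.Agent.N584.TI

/-! ### Translation invariant colourings of triples of integers -/

theorem trans_lower {n m L q N : ℕ} (hn : 14 ≤ n) (hL : n ≤ 2 ^ L)
    (hq : 168 * 27 * q ≤ n ^ 2) (hN : N ≤ 2 ^ m) (hm : m + L * (5 * n + 2) + n + 1 ≤ q) :
    ¬ Arrow (κ := Bool) TransInv 3 n N := by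
  classical
  rcases Nat.eq_zero_or_pos N with h0 | h0
  · subst h0
    intro h
    obtain ⟨S, hS, hSn, -⟩ := h (fun _ => true) (fun _ _ _ _ _ => rfl)
    have := card_le_card hS
    rw [card_range] at this
    omega
  have : NeZero N := ⟨h0.ne'⟩
  -- an invariant colouring without homogeneous set
  have h1 := cyclic_core (N := N) hn hL hq hN hm
  have hinv : 0 < (univ.filter fun c : Triple N → Bool => Inv c).card :=
    card_pos.2 ⟨fun _ => true, mem_filter.2 ⟨mem_univ _, fun _ _ _ => rfl⟩⟩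
  have h2 : ∃ c : Triple N → Bool, Inv c ∧ ¬ HasHom n c := by
    by_contra hcon
    push Not at hcon
    have h3 : (univ.filter fun c : Triple N → Bool => Inv c ∧ HasHom n c) =
        (univ.filter fun c : Triple N → Bool => Inv c) := by
      apply filter_congr
      intro c _
      exact ⟨fun h => h.1, fun h => ⟨h, hcon c h⟩⟩
    rw [h3] at h1
    have h4 : 2 ≤ 2 ^ n := by
      calc 2 = 2 ^ 1 := rfl
        _ ≤ 2 ^ n := Nat.pow_le_pow_right (by norm_num) (by omega)
    nlinarith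
  obtain ⟨c, hc, hcn⟩ := h2
  intro hA
  set φ : ℕ → ZMod N := fun x => (x : ZMod N) with hφ
  have hφi : ∀ S ⊆ range N, Set.InjOn φ (S : Set ℕ) := by
    intro S hS x hx y hy hxy
    exact cast_inj (mem_range.1 (hS hx)) (mem_range.1 (hS hy)) hxy
  obtain ⟨S, hS, hSn, b, hb⟩ := hA
    (fun A => if h : (A.image φ).card = 3 then c ⟨A.image φ, h⟩ else true) (by
      intro A t hA3 hAN hAt
      have e1 : (A.image φ).card = 3 := by rw [card_image_of_injOn (hφi A hAN), hA3]
      have e2 : ((A.image (· + t)).image φ).card = 3 := by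
        rw [card_image_of_injOn (hφi _ hAt), card_image_of_injective _ (add_left_injective t), hA3]
      simp only
      rw [dif_pos e1, dif_pos e2]
      symm
      apply hc
      refine ⟨(t : ZMod N), ?_⟩
      simp only [image_image]
      apply image_congr
      intro x _
      simp [hφ])
  apply hcn
  refine ⟨S.image φ, by rw [card_image_of_injOn (hφi S hS), hSn], b, ?_⟩
  rintro ⟨A', hA'⟩ hA'S
  obtain ⟨A, hAS, rfl⟩ := subset_image_iff.1 (show A' ⊆ S.image φ from hA'S)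
  have hAS' : A ⊆ S := by exact_mod_cast hAS
  have hA3 : A.card = 3 := by
    rw [card_image_of_injOn (hφi A (hAS'.trans hS))] at hA'
    exact hA'
  have := hb A hAS' hA3
  rwa [dif_pos hA'] at this

/-! ### Triples of real numbers -/

/-- A pair of residues. -/
def mk2 {M : ℕ} (hM : 0 < M) (a b : ℕ) : Fin M × Fin M :=
  (⟨a % M, Nat.mod_lt _ hM⟩, ⟨b % M, Nat.mod_lt _ hM⟩)

/-- The type of a triple of a sequence with fractional parts ordered as given by `ρ`. -/
def rtype {n : ℕ} (M : ℕ) (hM : 0 < M) (t : Fin n → ℕ) (ρ : Fin n → Fin n) (i j k : Fin n) :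
    Fin M × Fin M :=
  mk2 hM (t j - t i - if ρ j < ρ i then 1 else 0) (t k - t j - if ρ k < ρ j then 1 else 0)

theorem mult_rtype {n M : ℕ} (hM : 0 < M) (t : Fin n → ℕ) (ρ : Fin n → Fin n) (ht : StrictMono t)
    (htM : ∀ i, t i < M) : Mult 27 t (rtype M hM t ρ) := by
  rintro ⟨a, b⟩
  refine ⟨{(a : ℕ), (a : ℕ) + 1} ×ˢ {(b : ℕ), (b : ℕ) + 1}, ?_, ?_⟩
  · rw [card_product]
    have h1 : ({(a : ℕ), (a : ℕ) + 1} : Finset ℕ).card ≤ 2 := card_le_two
    have h2 : ({(b : ℕ), (b : ℕ) + 1} : Finset ℕ).card ≤ 2 := card_le_two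
    nlinarith
  · intro i j k hij hjk h
    unfold rtype mk2 at h
    rw [Prod.mk.injEq] at h
    have h1 := congrArg Fin.val h.1
    have h2 := congrArg Fin.val h.2
    have q1 := ht hij
    have q2 := ht hjk
    have q3 := htM j
    have q4 := htM k
    have h3 : (t j - t i - if ρ j < ρ i then 1 else 0) < M := by split_ifs <;> omega
    have h4 : (t k - t j - if ρ k < ρ j then 1 else 0) < M := by split_ifs <;> omega
    simp only at h1 h2
    rw [Nat.mod_eq_of_lt h3] at h1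
    rw [Nat.mod_eq_of_lt h4] at h2
    rw [mem_product]
    simp only [mem_insert, mem_singleton]
    split_ifs at h1 h2 <;> constructor <;> omega

/-- The colour of an increasing triple of real numbers. -/
noncomputable def realF {M : ℕ} (hM : 0 < M) (f : Fin M × Fin M → Bool) (x : Fin 3 → ℝ) : Bool :=
  f (mk2 hM ⌊x 1 - x 0⌋₊ ⌊x 2 - x 1⌋₊)

theorem floor_gap {x y : ℝ} (hx : 0 ≤ x) (hxy : x + 1 ≤ y) :
    ⌊y - x⌋₊ = ⌊y⌋₊ - ⌊x⌋₊ - if y - ⌊y⌋₊ < x - ⌊x⌋₊ then 1 else 0 := by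
  have h1 := Nat.floor_le hx
  have h2 := Nat.lt_floor_add_one x
  have h3 := Nat.floor_le (show 0 ≤ y by linarith)
  have h4 := Nat.lt_floor_add_one y
  have h5 : ⌊x⌋₊ + 1 ≤ ⌊y⌋₊ := by
    rw [Nat.le_floor_iff (by linarith)]
    push_cast
    linarith
  split_ifs with h
  · rw [Nat.floor_eq_iff (by linarith)]
    have h6 : ((⌊y⌋₊ - ⌊x⌋₊ - 1 : ℕ) : ℝ) = ⌊y⌋₊ - ⌊x⌋₊ - 1 := by
      rw [Nat.cast_sub (by omega), Nat.cast_sub (by omega)]
      simp
    rw [h6]
    constructor <;> linarith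
  · rw [Nat.floor_eq_iff (by linarith)]
    have h6 : ((⌊y⌋₊ - ⌊x⌋₊ - 0 : ℕ) : ℝ) = ⌊y⌋₊ - ⌊x⌋₊ := by
      rw [Nat.sub_zero, Nat.cast_sub (by omega)]
    rw [h6]
    rw [not_lt] at h
    constructor <;> linarith

/-- A translation invariant colouring of the triples of real numbers for which separated subsets of
`[0, M)` with `n` elements are not homogeneous. -/
theorem real_core {n m L q M : ℕ} (hn : 14 ≤ n) (hL : n ≤ 2 ^ L)
    (hq : 168 * 27 * q ≤ n ^ 2) (hM : M ≤ 2 ^ m) (hM0 : 0 < M)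
    (hm : m + L * (5 * n + 2) + n + 1 ≤ q) :
    ∃ χ : Finset ℝ → Bool, (∀ (t : ℝ) (T : Finset ℝ), χ (T.image (· + t)) = χ T) ∧
      ∀ Λ : Finset ℝ, Λ.card = n → (∀ l ∈ Λ, 0 ≤ l ∧ l < M) →
        (∀ l ∈ Λ, ∀ l' ∈ Λ, l < l' → l + 1 ≤ l') → ∀ b, ∃ A ⊆ Λ, A.card = 3 ∧ χ A ≠ b := by
  classical
  obtain ⟨f, hf⟩ := core_exists (Ω := Fin M × Fin M) (n := n) (C := 27) (M := M) hn (by norm_num)
    hL hq hM hm (fun t ρ => rtype M hM0 t ρ) (fun t ρ ht htM => mult_rtype hM0 t ρ ht htM)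
  refine ⟨ofTup 3 true (realF hM0 f), ?_, ?_⟩
  · intro t T
    apply ofTup_trans
    intro x t _
    show f (mk2 hM0 ⌊x 1 + t - (x 0 + t)⌋₊ ⌊x 2 + t - (x 1 + t)⌋₊) = _
    rw [show x 1 + t - (x 0 + t) = x 1 - x 0 by ring, show x 2 + t - (x 1 + t) = x 2 - x 1 by ring]
    rfl
  · intro Λ hΛn hΛM hΛs b
    by_contra hcon
    push Not at hcon
    apply hf
    set l := Λ.orderEmbOfFin hΛn with hl
    have hlΛ : ∀ i, l i ∈ Λ := fun i => orderEmbOfFin_mem _ _ _
    have hlm : StrictMono l := l.strictMono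
    have hsep : ∀ i j, i < j → l i + 1 ≤ l j := fun i j hij => hΛs _ (hlΛ i) _ (hlΛ j) (hlm hij)
    set θ : Fin n → ℝ := fun i => l i - ⌊l i⌋₊ with hθ
    have hρ : ∀ i : Fin n, (univ.filter fun k => θ k < θ i).card < n := by
      intro i
      calc (univ.filter fun k => θ k < θ i).card < (univ : Finset (Fin n)).card :=
            card_lt_card ⟨filter_subset _ _, fun h => by
              have := (mem_filter.1 (h (mem_univ i))).2
              exact lt_irrefl _ this⟩
        _ = n := by simp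
    set ρ : Fin n → Fin n := fun i => ⟨(univ.filter fun k => θ k < θ i).card, hρ i⟩ with hρd
    have hρθ : ∀ i j, ρ j < ρ i ↔ θ j < θ i := by
      intro i j
      constructor
      · intro h
        by_contra h'
        rw [not_lt] at h'
        have h6 : (univ.filter fun k => θ k < θ i) ⊆ (univ.filter fun k => θ k < θ j) := by
          intro k hk
          rw [mem_filter] at hk ⊢
          exact ⟨hk.1, hk.2.trans_le h'⟩
        have h7 := card_le_card h6
        have h8 : (univ.filter fun k => θ k < θ j).card < (univ.filter fun k => θ k < θ i).card := h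
        omega
      · intro h
        show (univ.filter fun k => θ k < θ j).card < (univ.filter fun k => θ k < θ i).card
        apply card_lt_card
        refine ⟨?_, ?_⟩
        · intro k hk
          have hk' := (mem_filter.1 hk).2
          exact mem_filter.2 ⟨mem_univ _, hk'.trans h⟩
        · intro hss
          have := (mem_filter.1 (hss (mem_filter.2 ⟨mem_univ j, h⟩))).2
          exact lt_irrefl _ this
    have htM : ∀ i, ⌊l i⌋₊ < M := fun i => by
      rw [Nat.floor_lt (hΛM _ (hlΛ i)).1]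
      exact (hΛM _ (hlΛ i)).2
    refine ⟨fun i => ⌊l i⌋₊, ρ, ?_, htM, b, ?_⟩
    · intro i j hij
      show ⌊l i⌋₊ < ⌊l j⌋₊
      have h6 := hsep i j hij
      have h7 := Nat.floor_le (hΛM _ (hlΛ i)).1
      have : ⌊l i⌋₊ + 1 ≤ ⌊l j⌋₊ := by
        rw [Nat.le_floor_iff (hΛM _ (hlΛ j)).1]
        push_cast
        linarith
      omega
    · intro i j k hij hjk
      have hx : StrictMono (![l i, l j, l k] : Fin 3 → ℝ) := by
        rw [Fin.strictMono_iff_lt_succ]
        intro a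
        fin_cases a
        · exact hlm hij
        · exact hlm hjk
      have h6 := hcon (univ.image (![l i, l j, l k] : Fin 3 → ℝ)) (by
        intro y hy
        obtain ⟨a, -, rfl⟩ := mem_image.1 hy
        fin_cases a <;> simp [hlΛ]) (card_tuple hx)
      rw [ofTup_image hx] at h6
      rw [← h6]
      show f (mk2 hM0 _ _) = f (mk2 hM0 ⌊l j - l i⌋₊ ⌊l k - l j⌋₊)
      have g1 : ⌊l j - l i⌋₊ = ⌊l j⌋₊ - ⌊l i⌋₊ - if ρ j < ρ i then 1 else 0 := by
        rw [floor_gap (hΛM _ (hlΛ i)).1 (hsep i j hij)]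
        congr 1
        simp only [hρθ, hθ]
      have g2 : ⌊l k - l j⌋₊ = ⌊l k⌋₊ - ⌊l j⌋₊ - if ρ k < ρ j then 1 else 0 := by
        rw [floor_gap (hΛM _ (hlΛ j)).1 (hsep j k hjk)]
        congr 1
        simp only [hρθ, hθ]
      rw [g1, g2]

/-- Affinely invariant colourings of the quadruples. -/
theorem aff_four {n m L q M : ℕ} (hn : 14 ≤ n) (hL : n ≤ 2 ^ L)
    (hq : 168 * 27 * q ≤ n ^ 2) (hM : M ≤ 2 ^ m) (hM0 : 0 < M)
    (hm : m + L * (5 * n + 2) + n + 1 ≤ q) :
    ¬ Arrow (κ := Bool) AffInv 4 (2 * n + 2) (2 ^ M) := by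
  obtain ⟨χ, hχ, hχ2⟩ := real_core hn hL hq hM hM0 hm
  intro hA
  obtain ⟨S, hS, hSn, b, hb⟩ := hA (ofTup 4 true (stepF ρL true false χ 0)) (affInv_stepF hχ)
  obtain ⟨Λ, hΛn, hΛ, hΛ1, hΛb⟩ := step_main (n := n) isScale_ρL (show true ≠ false by decide)
    (by omega) (S := S) (b := b) (χ := χ) (s := 0) (by omega) (by
      intro x hx hxS
      have := hb _ (mem_of_tuple hxS) (card_tuple hx)
      rwa [ofTup_image hx] at this)
  obtain ⟨A, hA1, hA2, hA3⟩ := hχ2 Λ hΛn (by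
    intro z hz
    obtain ⟨u, hu, v, hv, huv, rfl⟩ := hΛ z hz
    have hv' : v < 2 ^ M := by simpa using hS hv
    have e1 : (1 : ℝ) ≤ (v : ℝ) - u := by
      have : (u : ℝ) + 1 ≤ v := by exact_mod_cast huv
      linarith
    have e2 : (v : ℝ) - u < 2 ^ M := by
      have : (v : ℝ) < 2 ^ M := by exact_mod_cast hv'
      have : (0 : ℝ) ≤ u := Nat.cast_nonneg _
      linarith
    unfold ρL
    refine ⟨Real.logb_nonneg (by norm_num) e1, ?_⟩
    rw [Real.logb_lt_iff_lt_rpow (by norm_num) (by linarith), Real.rpow_natCast]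
    exact e2) hΛ1 b
  exact hA3 (hΛb A hA1 hA2)

/-! ### The growth -/

theorem params {n : ℕ} (hn : 4194304 ≤ n) :
    14 ≤ n ∧ n ≤ 2 ^ (n / 131072) ∧ 168 * 27 * (n ^ 2 / 4536) ≤ n ^ 2 ∧
      n ^ 2 / 10000 + n / 131072 * (5 * n + 2) + n + 1 ≤ n ^ 2 / 4536 := by
  refine ⟨by omega, ?_, by omega, ?_⟩
  · obtain ⟨k, hk⟩ : ∃ k, k = n / 131072 := ⟨_, rfl⟩
    rw [← hk]
    have h1 : 32 ≤ k := by omega
    have h2 : n < (k + 1) * 131072 := by omega
    have h3 : ∀ j : ℕ, (32 + j + 1) * 131072 ≤ 2 ^ (32 + j) := by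
      intro j
      induction j with
      | zero => norm_num
      | succ j ih =>
        calc (32 + (j + 1) + 1) * 131072 ≤ 2 * ((32 + j + 1) * 131072) := by linarith
          _ ≤ 2 * 2 ^ (32 + j) := Nat.mul_le_mul_left _ ih
          _ = 2 ^ (32 + (j + 1)) := by rw [← add_assoc, pow_succ, mul_comm]
    obtain ⟨j, hj⟩ : ∃ j, k = 32 + j := ⟨k - 32, by omega⟩
    rw [hj] at h2 ⊢
    exact h2.le.trans (h3 j)
  · obtain ⟨l, hl⟩ : ∃ l, l = n / 131072 := ⟨_, rfl⟩
    obtain ⟨s, hs⟩ : ∃ s, s = n ^ 2 := ⟨_, rfl⟩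
    have h1 : 131072 * l ≤ n := by omega
    rw [← hl, ← hs]
    have h2 : 131072 * (l * (5 * n + 2)) ≤ 5 * s + 2 * n := by
      rw [hs]
      nlinarith
    have h3 : 4194304 * n ≤ s := by
      rw [hs]
      nlinarith
    obtain ⟨u, hu⟩ : ∃ u, u = l * (5 * n + 2) := ⟨_, rfl⟩
    rw [← hu] at h2 ⊢
    omega

theorem trans_growth {n : ℕ} (hn : 4194304 ≤ n) :
    2 ^ (n ^ 2 / 10000) < Ram (κ := Bool) TransInv 3 n := by
  obtain ⟨h1, h2, h3, h4⟩ := params hn
  exact lt_Ram (by norm_num) hered_trans (trans_lower h1 h2 h3 le_rfl h4)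

theorem aff_growth {n : ℕ} (hn : 4194304 ≤ n) :
    2 ^ 2 ^ (n ^ 2 / 10000) < Ram (κ := Bool) AffInv 4 (2 * n + 2) := by
  obtain ⟨h1, h2, h3, h4⟩ := params hn
  exact lt_Ram (by norm_num) hered_aff (aff_four h1 h2 h3 le_rfl (by positivity) h4)

theorem lo_trans : Lo 2 1 (Ram (κ := Bool) TransInv 3) := by
  refine ⟨1 / 40000, by norm_num, 4194304, ?_⟩
  intro n hn
  have h1 := trans_growth hn
  have h2 : Real.exp (1 / 40000 * (n : ℝ) ^ 2) ≤ (2 : ℝ) ^ (n ^ 2 / 10000) := by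
    apply two_pow_ge
    have h3 : n ^ 2 ≤ 20000 * (n ^ 2 / 10000) := by
      have : 10000 ≤ n ^ 2 := by nlinarith
      omega
    have h4 : (n : ℝ) ^ 2 ≤ 20000 * ((n ^ 2 / 10000 : ℕ) : ℝ) := by exact_mod_cast h3
    linarith
  rw [Function.iterate_one]
  refine h2.trans ?_
  exact_mod_cast h1.le

theorem lo_aff_four : Lo 2 2 (Ram (κ := Bool) AffInv 4) := by
  have h1 : Lo 2 1 (fun n => if 4194304 ≤ n then 2 ^ (n ^ 2 / 10000) else 0) := by
    refine ⟨1 / 40000, by norm_num, 4194304, ?_⟩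
    intro n hn
    have h2 : Real.exp (1 / 40000 * (n : ℝ) ^ 2) ≤ (2 : ℝ) ^ (n ^ 2 / 10000) := by
      apply two_pow_ge
      have h3 : n ^ 2 ≤ 20000 * (n ^ 2 / 10000) := by
        have : 10000 ≤ n ^ 2 := by nlinarith
        omega
      have h4 : (n : ℝ) ^ 2 ≤ 20000 * ((n ^ 2 / 10000 : ℕ) : ℝ) := by exact_mod_cast h3
      linarith
    rw [Function.iterate_one]
    beta_reduce
    rw [if_pos hn]
    refine h2.trans ?_
    push_cast
    exact le_rfl
  refine lo_step (k := 1) (a := 2) (b := 2) (by norm_num) le_rfl (by norm_num)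
    (fun n m hnm => Ram_mono (by omega) hnm) ?_ h1
  intro n _
  by_cases hn : 4194304 ≤ n
  · rw [if_pos hn]
    exact (Nat.pow_le_pow_right (by norm_num) (Nat.sub_le _ _)).trans (aff_growth hn).le
  · rw [if_neg hn]
    have := le_Ram (κ := Bool) (P := AffInv) (r := 4) (n := 2 * n + 2) (by norm_num) inh_aff
    simp only [Nat.zero_sub, pow_zero]
    omega

theorem lower_trans : LowerGrowth (Ram (κ := Bool) TransInv 3) 1 2 :=
  lo_trans.lower fun n => le_Ram (by norm_num) inh_trans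

theorem lower_aff : LowerGrowth (Ram (κ := Bool) AffInv 4) 2 2 :=
  lo_aff_four.lower fun n => le_Ram (by norm_num) inh_aff

end Pool.Agent.U458.TI
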