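import Pool.Agent.U458.TI.Rank

/-!
# The union bound
-/

set_option autoImplicit false

namespace Pool.Agent.U458.TI

open Finset

variable {n : ℕ}

/-- The pairs of gaps of the triples of `t`. -/
def gaps (t : Fin n → ℕ) : Finset (ℕ × ℕ) :=
  (univ.filter fun p : Fin n × Fin n × Fin n => p.1 < p.2.1 ∧ p.2.1 < p.2.2).image
    fun p => (t p.2.1 - t p.1, t p.2.2 - t p.2.1)

theorem mem_gaps {t : Fin n → ℕ} {i j k : Fin n} (h1 : i < j) (h2 : j < k) :
    (t j - t i, t k - t j) ∈ gaps t :=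
  mem_image.2 ⟨(i, j, k), by simp [h1, h2], rfl⟩

theorem pd_le_gaps (t : Fin n → ℕ) (ht : StrictMono t) :
    (pd t).card * (n - 2) ≤ 3 * (gaps t).card := by
  classical
  have hex : ∀ w : {w // w ∈ pd t}, ∃ p : Fin n × Fin n, p.1 < p.2 ∧ t p.2 - t p.1 = w := by
    rintro ⟨w, hw⟩
    obtain ⟨p, hp, hpw⟩ := mem_image.1 hw
    exact ⟨p, by simpa using hp, hpw⟩
  choose g hg1 hg2 using hex
  set Dm : Finset (Σ _ : {w // w ∈ pd t}, Fin n) :=
    (univ : Finset {w // w ∈ pd t}).sigma (fun w => univ \ {(g w).1, (g w).2}) with hDm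
  have hDc : (pd t).card * (n - 2) ≤ Dm.card := by
    rw [hDm, card_sigma]
    have h1 : ∀ w ∈ (univ : Finset {w // w ∈ pd t}),
        n - 2 ≤ (univ \ {(g w).1, (g w).2} : Finset (Fin n)).card := by
      intro w _
      have h2 := le_card_sdiff {(g w).1, (g w).2} (univ : Finset (Fin n))
      have h3 : ({(g w).1, (g w).2} : Finset (Fin n)).card ≤ 2 := card_le_two
      rw [card_univ, Fintype.card_fin] at h2
      omega
    have h2 := card_nsmul_le_sum _ _ _ h1
    rw [card_univ, Fintype.card_coe, smul_eq_mul] at h2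
    exact h2
  refine hDc.trans ?_
  have h3 : 3 * (gaps t).card = ((univ : Finset (Fin 3)) ×ˢ gaps t).card := by
    rw [card_product, card_univ, Fintype.card_fin]
  rw [h3]
  apply card_le_card_of_injOn (fun p => if p.2 < (g p.1).1 then
      ((0 : Fin 3), (t (g p.1).1 - t p.2, t (g p.1).2 - t (g p.1).1))
    else if p.2 < (g p.1).2 then (1, (t p.2 - t (g p.1).1, t (g p.1).2 - t p.2))
    else (2, (t (g p.1).2 - t (g p.1).1, t p.2 - t (g p.1).2)))
  · rintro ⟨w, k⟩ hp
    rw [mem_coe, hDm, mem_sigma, mem_sdiff, mem_insert, mem_singleton, not_or] at hp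
    obtain ⟨-, -, hk1, hk2⟩ := hp
    simp only at hk1 hk2
    rw [mem_coe, mem_product]
    refine ⟨mem_univ _, ?_⟩
    by_cases h1 : k < (g w).1
    · simp only [h1, if_true]
      exact mem_gaps h1 (hg1 w)
    · by_cases h2 : k < (g w).2
      · simp only [h1, h2, if_true, if_false]
        exact mem_gaps (lt_of_le_of_ne (not_lt.1 h1) (Ne.symm hk1)) h2
      · simp only [h1, h2, if_false]
        exact mem_gaps (hg1 w) (lt_of_le_of_ne (not_lt.1 h2) (Ne.symm hk2))
  · rintro ⟨w, k⟩ hp ⟨w', k'⟩ hp' he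
    rw [mem_coe, hDm, mem_sigma, mem_sdiff, mem_insert, mem_singleton, not_or] at hp hp'
    obtain ⟨-, -, hk1, hk2⟩ := hp
    obtain ⟨-, -, hk1', hk2'⟩ := hp'
    simp only at hk1 hk2 hk1' hk2'
    have hgw := hg2 w
    have hgw' := hg2 w'
    have hlt := ht (hg1 w)
    have hlt' := ht (hg1 w')
    have key : ∀ (h : (w : ℕ) = w') (h2 : w = w' → t k = t k'), (⟨w, k⟩ : Σ _ : {w // w ∈ pd t}, Fin n) =
        ⟨w', k'⟩ := by
      intro h h2
      have e1 : w = w' := Subtype.ext h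
      have e2 := ht.injective (h2 e1)
      subst e1
      rw [e2]
    by_cases a1 : k < (g w).1
    · by_cases b1 : k' < (g w').1
      · simp only [a1, b1, if_true] at he
        rw [Prod.mk.injEq, Prod.mk.injEq] at he
        obtain ⟨-, e1, e2⟩ := he
        have q1 := ht a1
        have q2 := ht b1
        refine key (by omega) ?_
        intro h
        subst h
        omega
      · by_cases b2 : k' < (g w').2
        · simp [a1, b1, b2] at he
        · simp [a1, b1, b2] at he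
    · by_cases a2 : k < (g w).2
      · by_cases b1 : k' < (g w').1
        · simp [a1, a2, b1] at he
        · by_cases b2 : k' < (g w').2
          · simp only [a1, a2, b1, b2, if_true, if_false] at he
            rw [Prod.mk.injEq, Prod.mk.injEq] at he
            obtain ⟨-, e1, e2⟩ := he
            have q1 := ht a2
            have q2 := ht b2
            have q3 := ht (lt_of_le_of_ne (not_lt.1 a1) (Ne.symm hk1))
            have q4 := ht (lt_of_le_of_ne (not_lt.1 b1) (Ne.symm hk1'))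
            refine key (by omega) ?_
            intro h
            subst h
            omega
          · simp [a1, a2, b1, b2] at he
      · by_cases b1 : k' < (g w').1
        · simp [a1, a2, b1] at he
        · by_cases b2 : k' < (g w').2
          · simp [a1, a2, b1, b2] at he
          · simp only [a1, a2, b1, b2, if_false] at he
            rw [Prod.mk.injEq, Prod.mk.injEq] at he
            obtain ⟨-, e1, e2⟩ := he
            have q3 := ht (lt_of_le_of_ne (not_lt.1 a2) (Ne.symm hk2))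
            have q4 := ht (lt_of_le_of_ne (not_lt.1 b2) (Ne.symm hk2'))
            refine key (by omega) ?_
            intro h
            subst h
            omega

/-- The types of the triples. -/
noncomputable def types {Ω : Type*} [DecidableEq Ω] (τ : Fin n → Fin n → Fin n → Ω) : Finset Ω :=
  (univ.filter fun p : Fin n × Fin n × Fin n => p.1 < p.2.1 ∧ p.2.1 < p.2.2).image
    fun p => τ p.1 p.2.1 p.2.2

/-- The pairs of gaps are determined by the type up to `C` possibilities. -/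
def Mult {Ω : Type*} (C : ℕ) (t : Fin n → ℕ) (τ : Fin n → Fin n → Fin n → Ω) : Prop :=
  ∀ ω : Ω, ∃ L : Finset (ℕ × ℕ), L.card ≤ C ∧ ∀ i j k, i < j → j < k → τ i j k = ω →
    (t j - t i, t k - t j) ∈ L

theorem gaps_le_types {Ω : Type*} [DecidableEq Ω] {C : ℕ} {t : Fin n → ℕ}
    {τ : Fin n → Fin n → Fin n → Ω} (h : Mult C t τ) :
    (gaps t).card ≤ C * (types τ).card := by
  classical
  have hex : ∀ x : {x // x ∈ gaps t}, ∃ p : Fin n × Fin n × Fin n, (p.1 < p.2.1 ∧ p.2.1 < p.2.2) ∧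
      (t p.2.1 - t p.1, t p.2.2 - t p.2.1) = (x : ℕ × ℕ) := by
    rintro ⟨x, hx⟩
    obtain ⟨p, hp, hpx⟩ := mem_image.1 hx
    exact ⟨p, by simpa using hp, hpx⟩
  choose g hg1 hg2 using hex
  have h1 := card_le_mul_card_image (f := fun x : {x // x ∈ gaps t} =>
    τ (g x).1 (g x).2.1 (g x).2.2) univ C (by
      intro ω _
      obtain ⟨L, hL, hL2⟩ := h ω
      refine le_trans ?_ hL
      apply card_le_card_of_injOn (fun x : {x // x ∈ gaps t} => (x : ℕ × ℕ))
      · intro x hx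
        have hx' := (mem_filter.1 (mem_coe.1 hx)).2
        have := hL2 _ _ _ (hg1 x).1 (hg1 x).2 hx'
        rw [hg2 x] at this
        exact mem_coe.2 this
      · intro x _ y _ hxy
        exact Subtype.ext hxy)
  rw [card_univ, Fintype.card_coe] at h1
  refine h1.trans (Nat.mul_le_mul_left _ (card_le_card ?_))
  intro ω hω
  obtain ⟨x, -, rfl⟩ := mem_image.1 hω
  exact mem_image.2 ⟨g x, by simpa using hg1 x, rfl⟩

/-- The number of types is at least `rk t n ^ 2 / (168 C)`. -/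
theorem types_lower {Ω : Type*} [DecidableEq Ω] {C : ℕ} {t : Fin n → ℕ}
    {τ : Fin n → Fin n → Fin n → Ω} (hn : 14 ≤ n) (ht : StrictMono t) (h : Mult C t τ) :
    rk t * n ^ 2 ≤ 168 * C * (types τ).card := by
  have h1 := rk_le_pd t ht
  have h2 := pd_le_gaps t ht
  have h3 := gaps_le_types h
  have h4 := rk_pos t (by omega)
  obtain ⟨a, ha⟩ : ∃ a, a = (pd t).card := ⟨_, rfl⟩
  obtain ⟨b, hb⟩ : ∃ b, b = (gaps t).card := ⟨_, rfl⟩
  obtain ⟨c, hc⟩ : ∃ c, c = (types τ).card := ⟨_, rfl⟩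
  obtain ⟨r, hr⟩ : ∃ r, r = rk t := ⟨_, rfl⟩
  obtain ⟨m, hm⟩ : ∃ m, n = m + 2 := ⟨n - 2, by omega⟩
  rw [← ha, ← hr] at h1
  rw [← ha, ← hb, hm] at h2
  rw [← hb, ← hc] at h3
  rw [← hr] at h4
  rw [← hr, ← hc]
  have e1 : m + 2 - 2 = m := by omega
  rw [e1] at h2
  have e2 : n ≤ r * n := Nat.le_mul_of_pos_left _ h4
  have h5 : r * n ≤ 28 * a := by omega
  have h6 : r * n * m ≤ 28 * (a * m) := by nlinarith
  have h7 : n ≤ 2 * m := by omega
  have h8 : r * n * n ≤ r * n * (2 * m) := Nat.mul_le_mul_left _ h7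
  nlinarith

/-- The number of functions that are constant on a given set. -/
theorem card_const {Ω : Type*} [Fintype Ω] [DecidableEq Ω] (Y : Finset Ω) (b : Bool) :
    (univ.filter fun f : Ω → Bool => ∀ y ∈ Y, f y = b).card * 2 ^ Y.card ≤
      2 ^ Fintype.card Ω := by
  classical
  have h1 : 2 ^ Y.card = Fintype.card ({y // y ∈ Y} → Bool) := by simp
  have h2 : 2 ^ Fintype.card Ω = Fintype.card (Ω → Bool) := by simp
  rw [h1, h2, ← card_univ, ← card_univ, ← card_product]
  apply card_le_card_of_injOn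
    (fun p : (Ω → Bool) × ({y // y ∈ Y} → Bool) => fun x => if h : x ∈ Y then p.2 ⟨x, h⟩ else p.1 x)
  · intro _ _
    exact mem_coe.2 (mem_univ _)
  · rintro ⟨f, g⟩ hp ⟨f', g'⟩ hp' he
    have q1 := (mem_filter.1 (mem_product.1 (mem_coe.1 hp)).1).2
    have q2 := (mem_filter.1 (mem_product.1 (mem_coe.1 hp')).1).2
    simp only at q1 q2 he
    have e1 : f = f' := by
      funext x
      by_cases hx : x ∈ Y
      · rw [q1 x hx, q2 x hx]
      · have := congrFun he x
        simpa [hx] using this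
    have e2 : g = g' := by
      funext x
      have := congrFun he x
      simpa [x.2] using this
    rw [e1, e2]

open Classical in
/-- **The union bound.** -/
theorem core {C M m L q : ℕ} (hn : 14 ≤ n) (hC : 1 ≤ C) (hL : n ≤ 2 ^ L)
    (hq : 168 * C * q ≤ n ^ 2) (hM : M ≤ 2 ^ m)
    (hm : m + L * (5 * n + 2) + n + 1 ≤ q) {Ω : Type*} [Fintype Ω]
    (τ : (Fin n → ℕ) → (Fin n → Fin n) → Fin n → Fin n → Fin n → Ω)
    (hτ : ∀ t ρ, StrictMono t → (∀ i, t i < M) → Mult C t (τ t ρ)) :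
    (univ.filter fun f : Ω → Bool => ∃ (t : Fin n → ℕ) (ρ : Fin n → Fin n), StrictMono t ∧
      (∀ i, t i < M) ∧ ∃ b, ∀ i j k, i < j → j < k → f (τ t ρ i j k) = b).card * 2 ^ n ≤
      2 ^ Fintype.card Ω := by
  set bad := univ.filter fun f : Ω → Bool => ∃ (t : Fin n → ℕ) (ρ : Fin n → Fin n), StrictMono t ∧
      (∀ i, t i < M) ∧ ∃ b, ∀ i j k, i < j → j < k → f (τ t ρ i j k) = b with hbad
  set T := univ.filter fun t : Fin n → Fin M => StrictMono t with hT
  set v : (Fin n → Fin M) → Fin n → ℕ := fun t i => (t i : ℕ) with hv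
  set y : ℝ := (1 / 2) ^ q with hy
  have hy0 : 0 < y := by positivity
  -- the number of functions for one sequence
  have hone : ∀ t ∈ T, ∀ ρ : Fin n → Fin n,
      ((univ.filter fun f : Ω → Bool => ∃ b, ∀ i j k, i < j → j < k → f (τ (v t) ρ i j k) = b).card
        : ℝ) ≤ 2 * 2 ^ Fintype.card Ω * y ^ rk (v t) := by
    intro t ht ρ
    have htm : StrictMono (v t) := fun i j hij => (mem_filter.1 ht).2 hij
    have hmu := hτ (v t) ρ htm (fun i => (t i).2)
    have h1 := types_lower hn htm hmu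
    set Y := types (τ (v t) ρ) with hY
    have h2 : (univ.filter fun f : Ω → Bool => ∃ b, ∀ i j k, i < j → j < k →
        f (τ (v t) ρ i j k) = b) ⊆ (univ.filter fun f : Ω → Bool => ∀ y ∈ Y, f y = true) ∪
          (univ.filter fun f : Ω → Bool => ∀ y ∈ Y, f y = false) := by
      intro f hf
      obtain ⟨b, hb⟩ := (mem_filter.1 hf).2
      have hb' : ∀ y ∈ Y, f y = b := by
        intro y hy
        obtain ⟨p, hp, rfl⟩ := mem_image.1 hy
        rw [mem_filter] at hp
        exact hb _ _ _ hp.2.1 hp.2.2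
      cases b with
      | true => exact mem_union_left _ (mem_filter.2 ⟨mem_univ _, hb'⟩)
      | false => exact mem_union_right _ (mem_filter.2 ⟨mem_univ _, hb'⟩)
    have h3 := (card_le_card h2).trans (card_union_le _ _)
    have h4 := card_const Y true
    have h5 := card_const Y false
    have h6 : (univ.filter fun f : Ω → Bool => ∃ b, ∀ i j k, i < j → j < k →
        f (τ (v t) ρ i j k) = b).card * 2 ^ Y.card ≤ 2 * 2 ^ Fintype.card Ω := by
      calc _ ≤ _ := Nat.mul_le_mul_right _ h3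
        _ ≤ _ := by
          rw [Nat.add_mul]
          omega
    have h7 : rk (v t) * q ≤ Y.card := by
      have e1 : rk (v t) * (168 * C * q) ≤ 168 * C * Y.card :=
        (Nat.mul_le_mul_left _ hq).trans h1
      have e2 : 168 * C * (rk (v t) * q) ≤ 168 * C * Y.card := by
        refine le_trans (le_of_eq ?_) e1
        ring
      exact Nat.le_of_mul_le_mul_left e2 (by omega)
    have h8 : y ^ rk (v t) = 1 / 2 ^ (rk (v t) * q) := by
      rw [hy, ← pow_mul, one_div, inv_pow, one_div, mul_comm]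
    rw [h8, mul_one_div, le_div_iff₀ (by positivity)]
    have h9 : (univ.filter fun f : Ω → Bool => ∃ b, ∀ i j k, i < j → j < k →
        f (τ (v t) ρ i j k) = b).card * 2 ^ (rk (v t) * q) ≤ 2 * 2 ^ Fintype.card Ω :=
      (Nat.mul_le_mul_left _ (Nat.pow_le_pow_right (by norm_num) h7)).trans h6
    exact_mod_cast h9
  -- the sum
  have hsum : (bad.card : ℝ) ≤ ∑ t ∈ T, ∑ _ρ : Fin n → Fin n,
      2 * 2 ^ Fintype.card Ω * y ^ rk (v t) := by
    have h1 : bad ⊆ T.biUnion fun t => (univ : Finset (Fin n → Fin n)).biUnion fun ρ =>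
        univ.filter fun f : Ω → Bool => ∃ b, ∀ i j k, i < j → j < k →
          f (τ (v t) ρ i j k) = b := by
      intro f hf
      obtain ⟨t, ρ, ht, htm, hb⟩ := (mem_filter.1 hf).2
      refine mem_biUnion.2 ⟨fun i => ⟨t i, htm i⟩, ?_, mem_biUnion.2 ⟨ρ, mem_univ _, ?_⟩⟩
      · exact mem_filter.2 ⟨mem_univ _, fun i j hij => ht hij⟩
      · exact mem_filter.2 ⟨mem_univ _, hb⟩
    have h2 := (card_le_card h1).trans card_biUnion_le
    have h3 : (bad.card : ℝ) ≤ ∑ t ∈ T, (((univ : Finset (Fin n → Fin n)).biUnion fun ρ =>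
        univ.filter fun f : Ω → Bool => ∃ b, ∀ i j k, i < j → j < k →
          f (τ (v t) ρ i j k) = b).card : ℝ) := by exact_mod_cast h2
    refine h3.trans (sum_le_sum fun t ht => ?_)
    have h4 : (((univ : Finset (Fin n → Fin n)).biUnion fun ρ =>
        univ.filter fun f : Ω → Bool => ∃ b, ∀ i j k, i < j → j < k →
          f (τ (v t) ρ i j k) = b).card : ℝ) ≤ ∑ ρ : Fin n → Fin n,
          ((univ.filter fun f : Ω → Bool => ∃ b, ∀ i j k, i < j → j < k →
          f (τ (v t) ρ i j k) = b).card : ℝ) := by exact_mod_cast card_biUnion_le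
    exact h4.trans (sum_le_sum fun ρ _ => hone t ht ρ)
  have hnn : ((univ : Finset (Fin n → Fin n)).card : ℝ) = (n : ℝ) ^ n := by
    rw [card_univ, Fintype.card_fun, Fintype.card_fin]
    push_cast
    rfl
  have hT2 : ∑ t ∈ T, y ^ rk (v t) ≤ (n : ℝ) ^ (4 * n + 2) * 2 ^ m * y := by
    have h1 : ∀ t ∈ T, rk (v t) ∈ Finset.Icc 1 n := fun t _ =>
      Finset.mem_Icc.2 ⟨rk_pos _ (by omega), rk_le _⟩
    rw [← sum_fiberwise_of_maps_to h1]
    have h2 : ∀ D ∈ Finset.Icc 1 n, ∑ t ∈ T.filter (fun t => rk (v t) = D), y ^ rk (v t) ≤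
        (n : ℝ) ^ (4 * n + 1) * 2 ^ m * y := by
      intro D hD
      have hD1 := (Finset.mem_Icc.1 hD).1
      have h3 : ∑ t ∈ T.filter (fun t => rk (v t) = D), y ^ rk (v t) =
          ((T.filter (fun t => rk (v t) = D)).card : ℝ) * y ^ D := by
        rw [← nsmul_eq_mul, ← sum_const]
        apply sum_congr rfl
        intro t ht
        rw [(mem_filter.1 ht).2]
      have h4 : ((T.filter (fun t => rk (v t) = D)).card : ℝ) ≤
          ((n : ℝ) ^ 4) ^ n * ((n : ℝ) ^ D * (2 ^ m) ^ D) := by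
        have h5 : (T.filter (fun t => rk (v t) = D)).card ≤
            (n ^ 4) ^ n * (n ^ D * (2 ^ m) ^ D) := by
          refine le_trans (card_le_card ?_) ((card_rk n D M (by omega)).trans ?_)
          · intro t ht
            exact mem_filter.2 ⟨mem_univ _, (mem_filter.1 ht).2⟩
          · gcongr
        exact_mod_cast h5
      rw [h3]
      have h6 : (n : ℝ) * 2 ^ m * y ≤ 1 := by
        rw [hy, one_div, inv_pow, ← div_eq_mul_inv, div_le_one (by positivity)]
        have h7 : n * 2 ^ m ≤ 2 ^ q := by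
          calc n * 2 ^ m ≤ 2 ^ L * 2 ^ m := Nat.mul_le_mul_right _ hL
            _ = 2 ^ (L + m) := by rw [pow_add]
            _ ≤ 2 ^ q := Nat.pow_le_pow_right (by norm_num) (by nlinarith)
        exact_mod_cast h7
      have h8 : (n : ℝ) ^ D * (2 ^ m) ^ D * y ^ D ≤ (n : ℝ) * 2 ^ m * y := by
        rw [← mul_pow, ← mul_pow]
        calc ((n : ℝ) * 2 ^ m * y) ^ D ≤ ((n : ℝ) * 2 ^ m * y) ^ 1 :=
              pow_le_pow_of_le_one (by positivity) h6 hD1
          _ = _ := pow_one _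
      calc ((T.filter (fun t => rk (v t) = D)).card : ℝ) * y ^ D
          ≤ (((n : ℝ) ^ 4) ^ n * ((n : ℝ) ^ D * (2 ^ m) ^ D)) * y ^ D :=
            mul_le_mul_of_nonneg_right h4 (by positivity)
        _ = ((n : ℝ) ^ 4) ^ n * ((n : ℝ) ^ D * (2 ^ m) ^ D * y ^ D) := by ring
        _ ≤ ((n : ℝ) ^ 4) ^ n * ((n : ℝ) * 2 ^ m * y) :=
            mul_le_mul_of_nonneg_left h8 (by positivity)
        _ = _ := by rw [← pow_mul, pow_succ]; ring
    calc _ ≤ ∑ D ∈ Finset.Icc 1 n, (n : ℝ) ^ (4 * n + 1) * 2 ^ m * y := sum_le_sum h2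
      _ = (n : ℝ) * ((n : ℝ) ^ (4 * n + 1) * 2 ^ m * y) := by
          rw [sum_const, Nat.card_Icc, nsmul_eq_mul]
          simp
      _ = _ := by rw [pow_succ (n : ℝ) (4 * n + 1)]; ring
  have hfin : (bad.card : ℝ) ≤ 2 * 2 ^ Fintype.card Ω * ((n : ℝ) ^ (5 * n + 2) * 2 ^ m * y) := by
    refine hsum.trans ?_
    simp only [sum_const, nsmul_eq_mul, hnn]
    rw [← mul_sum, ← mul_sum]
    calc (n : ℝ) ^ n * (2 * 2 ^ Fintype.card Ω * ∑ t ∈ T, y ^ rk (v t))
        = 2 * 2 ^ Fintype.card Ω * ((n : ℝ) ^ n * ∑ t ∈ T, y ^ rk (v t)) := by ring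
      _ ≤ 2 * 2 ^ Fintype.card Ω * ((n : ℝ) ^ n * ((n : ℝ) ^ (4 * n + 2) * 2 ^ m * y)) := by
          gcongr
      _ = _ := by
          rw [show 5 * n + 2 = n + (4 * n + 2) by ring, pow_add]
          ring
  have hpow : (2 : ℝ) * ((n : ℝ) ^ (5 * n + 2) * 2 ^ m * y) * 2 ^ n ≤ 1 := by
    rw [hy, one_div, inv_pow]
    have h1 : (2 : ℝ) * ((n : ℝ) ^ (5 * n + 2) * 2 ^ m * (2 ^ q)⁻¹) * 2 ^ n =
        (2 * ((n : ℝ) ^ (5 * n + 2) * 2 ^ m) * 2 ^ n) / 2 ^ q := by
      field_simp
    rw [h1, div_le_one (by positivity)]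
    have h2 : 2 * (n ^ (5 * n + 2) * 2 ^ m) * 2 ^ n ≤ 2 ^ q := by
      calc 2 * (n ^ (5 * n + 2) * 2 ^ m) * 2 ^ n
          ≤ 2 * ((2 ^ L) ^ (5 * n + 2) * 2 ^ m) * 2 ^ n := by gcongr
        _ = 2 ^ (m + L * (5 * n + 2) + n + 1) := by
            rw [← pow_mul]
            ring
        _ ≤ 2 ^ q := Nat.pow_le_pow_right (by norm_num) hm
    exact_mod_cast h2
  have hlast : (bad.card : ℝ) * 2 ^ n ≤ 2 ^ Fintype.card Ω := by
    calc (bad.card : ℝ) * 2 ^ n
        ≤ (2 * 2 ^ Fintype.card Ω * ((n : ℝ) ^ (5 * n + 2) * 2 ^ m * y)) * 2 ^ n := by gcongr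
      _ = 2 ^ Fintype.card Ω * (2 * ((n : ℝ) ^ (5 * n + 2) * 2 ^ m * y) * 2 ^ n) := by ring
      _ ≤ 2 ^ Fintype.card Ω * 1 := by gcongr
      _ = _ := mul_one _
  exact_mod_cast hlast

open Classical in
/-- Some function is not constant on the types of any sequence. -/
theorem core_exists {C M m L q : ℕ} (hn : 14 ≤ n) (hC : 1 ≤ C) (hL : n ≤ 2 ^ L)
    (hq : 168 * C * q ≤ n ^ 2) (hM : M ≤ 2 ^ m)
    (hm : m + L * (5 * n + 2) + n + 1 ≤ q) {Ω : Type*} [Fintype Ω]
    (τ : (Fin n → ℕ) → (Fin n → Fin n) → Fin n → Fin n → Fin n → Ω)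
    (hτ : ∀ t ρ, StrictMono t → (∀ i, t i < M) → Mult C t (τ t ρ)) :
    ∃ f : Ω → Bool, ¬ ∃ (t : Fin n → ℕ) (ρ : Fin n → Fin n), StrictMono t ∧
      (∀ i, t i < M) ∧ ∃ b, ∀ i j k, i < j → j < k → f (τ t ρ i j k) = b := by
  have h1 := core hn hC hL hq hM hm τ hτ
  by_contra hcon
  have hcon' : ∀ f : Ω → Bool, ∃ (t : Fin n → ℕ) (ρ : Fin n → Fin n), StrictMono t ∧
      (∀ i, t i < M) ∧ ∃ b, ∀ i j k, i < j → j < k → f (τ t ρ i j k) = b := by
    intro f
    by_contra hf
    exact hcon ⟨f, hf⟩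
  rw [filter_true_of_mem (fun f _ => hcon' f), card_univ, Fintype.card_fun,
    Fintype.card_bool] at h1
  have h4 : 2 ≤ 2 ^ n := by
    calc 2 = 2 ^ 1 := rfl
      _ ≤ 2 ^ n := Nat.pow_le_pow_right (by norm_num) (by omega)
  have h5 : 0 < 2 ^ Fintype.card Ω := by positivity
  nlinarith

end Pool.Agent.U458.TI
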