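import Pool.Agent.U458.TI.Core

/-!
# Translation invariant colourings of the triples of a cyclic group
-/

set_option autoImplicit false

namespace Pool.Agent.U458.TI

open Finset

/-- The three-element subsets of `ZMod N`. -/
abbrev Triple (N : ℕ) : Type := {A : Finset (ZMod N) // A.card = 3}

/-- The colouring `c` of the three-element subsets of `ZMod N` is invariant under translations. -/
def Inv {N : ℕ} (c : Triple N → Bool) : Prop :=
  ∀ A B : Triple N, (∃ t : ZMod N, B.1 = A.1.image (· + t)) → c A = c B

/-- There are `n` elements all of whose triples have the same colour. -/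
def HasHom {N : ℕ} (n : ℕ) (c : Triple N → Bool) : Prop :=
  ∃ S : Finset (ZMod N), S.card = n ∧ ∃ b : Bool, ∀ A : Triple N, A.1 ⊆ S → c A = b

variable {N : ℕ} [NeZero N]

/-- The translates of a set. -/
def orb (A : Finset (ZMod N)) : Finset (Finset (ZMod N)) := univ.image fun t => A.image (· + t)

theorem orb_trans (A : Finset (ZMod N)) (t : ZMod N) : orb (A.image (· + t)) = orb A := by
  ext B
  unfold orb
  simp only [mem_image, mem_univ, true_and, image_image]
  constructor
  · rintro ⟨s, rfl⟩
    refine ⟨t + s, ?_⟩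
    congr 1
    funext x
    simp only [Function.comp]
    ring
  · rintro ⟨s, rfl⟩
    refine ⟨s - t, ?_⟩
    congr 1
    funext x
    simp only [Function.comp]
    ring

theorem of_orb {A B : Finset (ZMod N)} (h : orb A = orb B) : ∃ t, B = A.image (· + t) := by
  have h1 : B ∈ orb B := by
    unfold orb
    exact mem_image.2 ⟨0, mem_univ _, by simp⟩
  rw [← h] at h1
  obtain ⟨t, -, ht⟩ := mem_image.1 h1
  exact ⟨t, ht.symm⟩

/-- The translation classes of triples. -/
abbrev Orb (N : ℕ) [NeZero N] : Type :=
  {ω : Finset (Finset (ZMod N)) // ∃ A : Finset (ZMod N), A.card = 3 ∧ orb A = ω}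

/-- The colouring given by a function on the classes. -/
def colOf (f : Orb N → Bool) (A : Triple N) : Bool := f ⟨orb A.1, A.1, A.2, rfl⟩

theorem inv_colOf (f : Orb N → Bool) : Inv (colOf f) := by
  rintro ⟨A, hA⟩ ⟨B, hB⟩ ⟨t, ht⟩
  unfold colOf
  congr 1
  apply Subtype.ext
  show orb A = orb B
  have ht' : B = A.image (· + t) := ht
  rw [ht', orb_trans]

theorem colOf_inj : Function.Injective (colOf (N := N)) := by
  intro f g h
  funext ω
  obtain ⟨ω, A, hA, rfl⟩ := ω
  exact congrFun h ⟨A, hA⟩

theorem colOf_surj {c : Triple N → Bool} (hc : Inv c) : ∃ f, colOf f = c := by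
  classical
  refine ⟨fun ω => c ⟨ω.2.choose, ω.2.choose_spec.1⟩, ?_⟩
  funext A
  unfold colOf
  apply hc
  exact of_orb (Exists.choose_spec (⟨A.1, A.2, rfl⟩ :
    ∃ A' : Finset (ZMod N), A'.card = 3 ∧ orb A' = orb A.1)).2

/-- The residue classes of three numbers. -/
def tri (N a b c : ℕ) : Finset (ZMod N) := {(a : ZMod N), (b : ZMod N), (c : ZMod N)}

omit [NeZero N] in
theorem cast_inj {a b : ℕ} (ha : a < N) (hb : b < N) (h : (a : ZMod N) = b) : a = b := by
  have := congrArg ZMod.val h
  rwa [ZMod.val_natCast, ZMod.val_natCast, Nat.mod_eq_of_lt ha, Nat.mod_eq_of_lt hb] at this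

omit [NeZero N] in
theorem tri_card {a b c : ℕ} (h1 : a < b) (h2 : b < c) (h3 : c < N) : (tri N a b c).card = 3 := by
  unfold tri
  rw [card_eq_three]
  refine ⟨_, _, _, ?_, ?_, ?_, rfl⟩
  · intro h
    exact h1.ne (cast_inj (by omega) (by omega) h)
  · intro h
    exact (h1.trans h2).ne (cast_inj (by omega) (by omega) h)
  · intro h
    exact h2.ne (cast_inj (by omega) (by omega) h)

/-- The class of the triple of the `t i`, `t j`, `t k`. -/
noncomputable def cls [Nonempty (Orb N)] {n : ℕ} (t : Fin n → ℕ) (i j k : Fin n) : Orb N :=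
  open Classical in
  if h : (tri N (t i) (t j) (t k)).card = 3 then
    ⟨orb (tri N (t i) (t j) (t k)), tri N (t i) (t j) (t k), h, rfl⟩
  else Classical.arbitrary _

omit [NeZero N] in
theorem val_gap {a b : ℕ} (h1 : a < b) (h2 : b < N) : ((b : ZMod N) - a).val = b - a := by
  rw [← Nat.cast_sub h1.le, ZMod.val_natCast, Nat.mod_eq_of_lt (by omega)]

theorem mult_cls [Nonempty (Orb N)] {n : ℕ} (t : Fin n → ℕ) (ht : StrictMono t)
    (htN : ∀ i, t i < N) : Mult 27 t (cls (N := N) t) := by
  classical
  rintro ⟨ω, A, hA, rfl⟩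
  refine ⟨(A ×ˢ A ×ˢ A).image fun p => ((p.2.1 - p.1).val, (p.2.2 - p.2.1).val), ?_, ?_⟩
  · refine card_image_le.trans ?_
    rw [card_product, card_product, hA]
  · intro i j k hij hjk h
    have h3 := tri_card (N := N) (ht hij) (ht hjk) (htN k)
    unfold cls at h
    rw [dif_pos h3] at h
    have h4 : orb (tri N (t i) (t j) (t k)) = orb A := congrArg Subtype.val h
    obtain ⟨s, hs⟩ := of_orb h4
    have m1 : (t i : ZMod N) + s ∈ A := by
      rw [hs]
      exact mem_image_of_mem _ (by simp [tri])
    have m2 : (t j : ZMod N) + s ∈ A := by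
      rw [hs]
      exact mem_image_of_mem _ (by simp [tri])
    have m3 : (t k : ZMod N) + s ∈ A := by
      rw [hs]
      exact mem_image_of_mem _ (by simp [tri])
    refine mem_image.2 ⟨(_, _, _), mem_product.2 ⟨m1, mem_product.2 ⟨m2, m3⟩⟩, ?_⟩
    simp only
    rw [add_sub_add_right_eq_sub, add_sub_add_right_eq_sub, val_gap (ht hij) (htN j),
      val_gap (ht hjk) (htN k)]

open Classical in
/-- Almost all translation invariant colourings of the triples of `ZMod N` have no homogeneous
set with `n` elements. -/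
theorem cyclic_core {n m L q : ℕ} (hn : 14 ≤ n) (hL : n ≤ 2 ^ L)
    (hq : 168 * 27 * q ≤ n ^ 2) (hN : N ≤ 2 ^ m) (hm : m + L * (5 * n + 2) + n + 1 ≤ q) :
    (univ.filter fun c : Triple N → Bool => Inv c ∧ HasHom n c).card * 2 ^ n ≤
      (univ.filter fun c : Triple N → Bool => Inv c).card := by
  by_cases hnN : N < n
  · have : (univ.filter fun c : Triple N → Bool => Inv c ∧ HasHom n c) = ∅ := by
      rw [filter_eq_empty_iff]
      rintro c - ⟨-, S, hS, -⟩
      have := card_le_univ S
      rw [ZMod.card, hS] at this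
      omega
    rw [this]
    simp
  have hne : Nonempty (Orb N) :=
    ⟨⟨orb (tri N 0 1 2), tri N 0 1 2, tri_card (by norm_num) (by norm_num) (by omega), rfl⟩⟩
  have h1 := core (Ω := Orb N) (n := n) (C := 27) (M := N) hn (by norm_num) hL hq hN hm
    (fun t _ => cls (N := N) t) (fun t _ ht htN => mult_cls t ht htN)
  have h2 : 2 ^ Fintype.card (Orb N) ≤ (univ.filter fun c : Triple N → Bool => Inv c).card := by
    have : 2 ^ Fintype.card (Orb N) = (univ : Finset (Orb N → Bool)).card := by
      rw [card_univ]
      simp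
    rw [this]
    apply card_le_card_of_injOn colOf
    · intro f _
      exact mem_coe.2 (mem_filter.2 ⟨mem_univ _, inv_colOf f⟩)
    · exact colOf_inj.injOn
  refine le_trans (Nat.mul_le_mul_right _ ?_) (h1.trans h2)
  have hex : ∀ c : Triple N → Bool, ∃ f : Orb N → Bool, Inv c → colOf f = c := by
    intro c
    by_cases hc : Inv c
    · obtain ⟨f, hf⟩ := colOf_surj hc
      exact ⟨f, fun _ => hf⟩
    · exact ⟨fun _ => true, fun h => absurd h hc⟩
  choose g hg using hex
  apply card_le_card_of_injOn g
  · intro c hc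
    obtain ⟨-, hc, S, hS, b, hb⟩ := mem_filter.1 (mem_coe.1 hc)
    rw [mem_coe, mem_filter]
    refine ⟨(@mem_univ _ (_) _), ?_⟩
    have hSv : (S.image ZMod.val).card = n := by
      rw [card_image_of_injective _ (ZMod.val_injective N), hS]
    refine ⟨fun i => (S.image ZMod.val).orderEmbOfFin hSv i, fun i => i,
      ((S.image ZMod.val).orderEmbOfFin hSv).strictMono, ?_, b, ?_⟩
    · intro i
      have := orderEmbOfFin_mem (S.image ZMod.val) hSv i
      obtain ⟨x, -, hx⟩ := mem_image.1 this
      show (S.image ZMod.val).orderEmbOfFin hSv i < N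
      rw [← hx]
      exact ZMod.val_lt x
    · intro i j k hij hjk
      set t : Fin n → ℕ := fun i => (S.image ZMod.val).orderEmbOfFin hSv i with ht
      have htm : StrictMono t := ((S.image ZMod.val).orderEmbOfFin hSv).strictMono
      have htS : ∀ i, t i < N ∧ (t i : ZMod N) ∈ S := by
        intro i
        have := orderEmbOfFin_mem (S.image ZMod.val) hSv i
        obtain ⟨x, hxS, hx⟩ := mem_image.1 this
        have hx' : t i = x.val := hx.symm
        refine ⟨by rw [hx']; exact ZMod.val_lt x, ?_⟩
        rw [hx', ZMod.natCast_zmod_val]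
        exact hxS
      have h3 := tri_card (N := N) (htm hij) (htm hjk) (htS k).1
      have h4 : cls (N := N) t i j k = ⟨orb (tri N (t i) (t j) (t k)), tri N (t i) (t j) (t k),
          h3, rfl⟩ := by
        unfold cls
        rw [dif_pos h3]
      rw [h4]
      have h5 := hb ⟨tri N (t i) (t j) (t k), h3⟩ (by
        intro x hx
        have hx' : x ∈ tri N (t i) (t j) (t k) := hx
        unfold tri at hx'
        rw [mem_insert, mem_insert, mem_singleton] at hx'
        rcases hx' with rfl | rfl | rfl
        · exact (htS i).2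
        · exact (htS j).2
        · exact (htS k).2)
      rw [← hg c hc] at h5
      exact h5
  · intro c hc c' hc' h
    rw [← hg c (mem_filter.1 (mem_coe.1 hc)).2.1, ← hg c' (mem_filter.1 (mem_coe.1 hc')).2.1, h]

end Pool.Agent.U458.TI
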