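import Mathlib

/-!
# A weak form of the Freiman–Heppes–Uhrin inequality for difference sets

A finite set `S` in a vector space over `ℚ` whose span has dimension `D` has at least `D |S| / 7`
differences.
-/

set_option autoImplicit false

namespace Pool.Agent.U458.TI

open Finset Module

variable {E : Type*} [AddCommGroup E]

/-- A functional which is injective on a finite set. -/
theorem exists_functional [Module ℚ E] (A : Finset E) :
    ∃ ℓ : E →ₗ[ℚ] ℚ, ∀ a ∈ A, ∀ b ∈ A, ℓ a = ℓ b → a = b := by
  classical
  obtain ⟨f, hf⟩ := Module.exists_dual_forall_apply_ne_zero (K := ℚ) (M := E)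
    (ι := {p : A × A // p.1 ≠ p.2}) (fun p => (p.1.1 : E) - (p.1.2 : E)) (by
      intro p h
      exact p.2 (Subtype.ext (sub_eq_zero.1 h)))
  refine ⟨f, fun a ha b hb hab => ?_⟩
  by_contra hne
  refine hf ⟨(⟨a, ha⟩, ⟨b, hb⟩), fun h => hne (congrArg Subtype.val h)⟩ ?_
  rw [map_sub, hab, sub_self]

/-- The differences `s - p`. -/
def dif [DecidableEq E] (S P : Finset E) : Finset E := image₂ (fun s p => s - p) S P

theorem mem_dif [DecidableEq E] {S P : Finset E} {x : E} :
    x ∈ dif S P ↔ ∃ s ∈ S, ∃ p ∈ P, s - p = x := by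
  unfold dif
  exact mem_image₂

theorem dif_mono [DecidableEq E] {S P P' : Finset E} (h : P ⊆ P') : dif S P ⊆ dif S P' :=
  image₂_subset_left h

theorem weak_freiman [Module ℚ E] [DecidableEq E] (S : Finset E) :
    finrank ℚ (Submodule.span ℚ (S : Set E)) * S.card ≤ 7 * (dif S S).card := by
  classical
  rcases S.eq_empty_or_nonempty with rfl | hne
  · simp
  set n := S.card with hn
  have hn0 : 0 < n := card_pos.2 hne
  -- the trivial bound
  have htriv : n ≤ (dif S S).card := by
    obtain ⟨b, hb⟩ := hne
    calc n = (S.image fun s => s - b).card := by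
          rw [card_image_of_injective _ (sub_left_injective)]
      _ ≤ _ := card_le_card (by
          intro x hx
          obtain ⟨s, hs, rfl⟩ := mem_image.1 hx
          exact mem_dif.2 ⟨s, hs, b, hb, rfl⟩)
  -- a maximal family of translates
  obtain ⟨P, hPm, hPmax⟩ := exists_max_image
    (S.powerset.filter fun P => P.card * n ≤ 4 * (dif S P).card) card
    ⟨∅, by simp⟩
  rw [mem_filter, mem_powerset] at hPm
  obtain ⟨hPS, hP⟩ := hPm
  set m := P.card with hm
  have h4 : m * n ≤ 4 * (dif S S).card :=
    hP.trans (Nat.mul_le_mul_left _ (card_le_card (dif_mono hPS)))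
  -- few elements are bad
  have hbad : ∀ b ∈ S, 4 * (S.filter fun s => s - b ∉ dif S P).card < n := by
    intro b hb
    by_cases hbP : b ∈ P
    · have : (S.filter fun s => s - b ∉ dif S P) = ∅ := by
        rw [filter_eq_empty_iff]
        intro s hs h
        exact h (mem_dif.2 ⟨s, hs, b, hbP, rfl⟩)
      rw [this]
      simpa using hn0
    · by_contra hcon
      rw [not_lt] at hcon
      have hins : (dif S P).card + (S.filter fun s => s - b ∉ dif S P).card ≤
          (dif S (insert b P)).card := by
        rw [← card_image_of_injective (S.filter fun s => s - b ∉ dif S P)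
          (show Function.Injective fun s => s - b from sub_left_injective)]
        rw [← card_union_of_disjoint]
        · apply card_le_card
          intro x hx
          rcases mem_union.1 hx with hx | hx
          · exact dif_mono (subset_insert _ _) hx
          · obtain ⟨s, hs, rfl⟩ := mem_image.1 hx
            exact mem_dif.2 ⟨s, (mem_filter.1 hs).1, b, mem_insert_self _ _, rfl⟩
        · rw [disjoint_left]
          intro x hx hx'
          obtain ⟨s, hs, rfl⟩ := mem_image.1 hx'
          exact (mem_filter.1 hs).2 hx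
      have := hPmax (insert b P) (by
        rw [mem_filter, mem_powerset]
        refine ⟨insert_subset hb hPS, ?_⟩
        rw [card_insert_of_notMem hbP, Nat.add_mul, one_mul, ← hm]
        omega)
      rw [card_insert_of_notMem hbP] at this
      omega
  -- the quotient by the span of `P`
  set W := Submodule.span ℚ (P : Set E) with hW
  set q : E →ₗ[ℚ] (E ⧸ W) := W.mkQ with hq
  have hqP : ∀ p ∈ P, q p = 0 := by
    intro p hp
    rw [hq, Submodule.mkQ_apply, Submodule.Quotient.mk_eq_zero]
    exact Submodule.subset_span hp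
  obtain ⟨ℓ, hℓ⟩ := exists_functional (S.image q)
  obtain ⟨bp, hbp, hbpmax⟩ := exists_max_image S (fun s => ℓ (q s)) hne
  obtain ⟨bm, hbm, hbmmin⟩ := exists_min_image S (fun s => ℓ (q s)) hne
  set S' := S.filter fun s => s - bp ∈ dif S P ∧ s - bm ∈ dif S P with hS'
  have hS'c : n ≤ 2 * S'.card := by
    have h1 := hbad bp hbp
    have h2 := hbad bm hbm
    have h3 : S ⊆ S' ∪ ((S.filter fun s => s - bp ∉ dif S P) ∪
        (S.filter fun s => s - bm ∉ dif S P)) := by
      intro s hs
      simp only [hS', mem_union, mem_filter]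
      tauto
    have h5 := card_le_card h3
    have h6 := card_union_le S' ((S.filter fun s => s - bp ∉ dif S P) ∪
        (S.filter fun s => s - bm ∉ dif S P))
    have h7 := card_union_le (S.filter fun s => s - bp ∉ dif S P)
      (S.filter fun s => s - bm ∉ dif S P)
    omega
  have hval : ∀ s ∈ S', ℓ (q s) = ℓ (q bp) + ℓ (q bm) := by
    intro s hs
    rw [hS', mem_filter] at hs
    obtain ⟨hsS, h1, h2⟩ := hs
    obtain ⟨u, hu, p, hp, h1⟩ := mem_dif.1 h1
    obtain ⟨v, hv, p', hp', h2⟩ := mem_dif.1 h2
    have e1 : ℓ (q s) - ℓ (q bp) = ℓ (q u) := by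
      rw [← map_sub, ← map_sub, ← h1, map_sub, hqP p hp, sub_zero]
    have e2 : ℓ (q s) - ℓ (q bm) = ℓ (q v) := by
      rw [← map_sub, ← map_sub, ← h2, map_sub, hqP p' hp', sub_zero]
    have e3 := hbmmin u hu
    have e4 := hbpmax v hv
    beta_reduce at e3 e4
    linarith
  have hS'ne : S'.Nonempty := by
    rw [← card_pos]
    omega
  obtain ⟨s₀, hs₀⟩ := hS'ne
  have hS'S : S' ⊆ S := filter_subset _ _
  set F := Submodule.span ℚ (insert s₀ (P : Set E)) with hF
  have hS'F : ∀ s ∈ S', s ∈ F := by
    intro s hs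
    have h1 : q s = q s₀ := by
      apply hℓ _ (mem_image_of_mem _ (hS'S hs)) _ (mem_image_of_mem _ (hS'S hs₀))
      rw [hval s hs, hval s₀ hs₀]
    have h2 : s - s₀ ∈ W := by
      rw [hq, Submodule.mkQ_apply, Submodule.mkQ_apply] at h1
      exact (Submodule.Quotient.eq W).1 h1
    have h3 : W ≤ F := Submodule.span_mono (Set.subset_insert _ _)
    have h4 : s₀ ∈ F := Submodule.subset_span (Set.mem_insert _ _)
    have := F.add_mem (h3 h2) h4
    rwa [sub_add_cancel] at this
  have hFfin : finrank ℚ F ≤ m + 1 := by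
    have h := finrank_span_finset_le_card (R := ℚ) (insert s₀ P)
    rw [coe_insert] at h
    exact h.trans (card_insert_le _ _)
  -- the elements outside `F`
  set T := Submodule.span ℚ (S : Set E) with hT
  have hFT : F ≤ T := by
    apply Submodule.span_le.2
    intro x hx
    rcases hx with rfl | hx
    · exact Submodule.subset_span (hS'S hs₀)
    · exact Submodule.subset_span (hPS hx)
  haveI : FiniteDimensional ℚ T := FiniteDimensional.span_finset ℚ S
  obtain ⟨B, hBsub, hBspan, hBli⟩ := exists_linearIndependent ℚ (F.mkQ '' (S : Set E))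
  have hBfin : B.Finite := (S.finite_toSet.image _).subset hBsub
  have hpre : ∀ β : E ⧸ F, ∃ x : E, β ∈ B → x ∈ S ∧ F.mkQ x = β := by
    intro β
    by_cases hβ : β ∈ B
    · obtain ⟨x, hx, hxβ⟩ := hBsub hβ
      exact ⟨x, fun _ => ⟨hx, hxβ⟩⟩
    · exact ⟨0, fun h => absurd h hβ⟩
  choose h hh using hpre
  set X := hBfin.toFinset.image h with hX
  have hXS : X ⊆ S := by
    intro x hx
    obtain ⟨β, hβ, rfl⟩ := mem_image.1 hx
    exact (hh β (hBfin.mem_toFinset.1 hβ)).1
  have hTle : T ≤ F ⊔ Submodule.span ℚ (X : Set E) := by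
    apply Submodule.span_le.2
    intro s hs
    have h1 : F.mkQ s ∈ Submodule.span ℚ B := by
      rw [hBspan]
      exact Submodule.subset_span ⟨s, hs, rfl⟩
    have h2 : Submodule.span ℚ B ≤ (Submodule.span ℚ (X : Set E)).map F.mkQ := by
      rw [Submodule.map_span]
      apply Submodule.span_mono
      intro β hβ
      exact ⟨h β, by
        rw [hX, coe_image]
        exact ⟨β, by simpa using hβ, rfl⟩, (hh β hβ).2⟩
    obtain ⟨y, hy, hy2⟩ := h2 h1
    have h3 : s - y ∈ F := by
      rw [Submodule.mkQ_apply, Submodule.mkQ_apply] at hy2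
      exact (Submodule.Quotient.eq F).1 hy2.symm
    have := Submodule.add_mem_sup h3 hy
    rwa [sub_add_cancel] at this
  have hXc : X.card ≤ hBfin.toFinset.card := card_image_le
  have hrank : finrank ℚ T ≤ (m + 1) + hBfin.toFinset.card := by
    have : FiniteDimensional ℚ F := by
      rw [hF, ← coe_insert]
      exact FiniteDimensional.span_finset ℚ _
    have : FiniteDimensional ℚ (Submodule.span ℚ (X : Set E)) :=
      FiniteDimensional.span_finset ℚ _
    have h1 := Submodule.finrank_mono hTle
    have h2 := Submodule.finrank_add_le_finrank_add_finrank F (Submodule.span ℚ (X : Set E))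
    have h3 := finrank_span_finset_le_card (R := ℚ) X
    have h5 : finrank ℚ (Submodule.span ℚ (X : Set E)) ≤ X.card := h3
    omega
  have hmany : hBfin.toFinset.card * S'.card ≤ (dif S S).card := by
    rw [← card_product]
    apply card_le_card_of_injOn (fun p => h p.1 - p.2)
    · intro p hp
      have hp' := mem_product.1 (mem_coe.1 hp)
      exact mem_coe.2 (mem_dif.2 ⟨_, (hh p.1 (hBfin.mem_toFinset.1 hp'.1)).1, _, hS'S hp'.2, rfl⟩)
    · intro p hp p' hp' hpp
      have hp1 := mem_product.1 (mem_coe.1 hp)
      have hp2 := mem_product.1 (mem_coe.1 hp')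
      have hpp' : h p.1 - p.2 = h p'.1 - p'.2 := hpp
      have e0 : ∀ s ∈ S', F.mkQ s = 0 := by
        intro s hs
        rw [Submodule.mkQ_apply, Submodule.Quotient.mk_eq_zero]
        exact hS'F s hs
      have e1 : p.1 = p'.1 := by
        have h1 := congrArg F.mkQ hpp'
        rw [map_sub, map_sub, e0 _ hp1.2, e0 _ hp2.2, sub_zero, sub_zero,
          (hh p.1 (hBfin.mem_toFinset.1 hp1.1)).2, (hh p'.1 (hBfin.mem_toFinset.1 hp2.1)).2] at h1
        exact h1
      have e2 : p.2 = p'.2 := by
        rw [e1] at hpp'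
        exact sub_right_injective hpp'
      exact Prod.ext e1 e2
  have h6 : (finrank ℚ T) * n ≤ (m + 1) * n + hBfin.toFinset.card * n := by
    rw [← Nat.add_mul]
    exact Nat.mul_le_mul_right _ hrank
  have h7 : hBfin.toFinset.card * n ≤ 2 * (dif S S).card := by
    calc hBfin.toFinset.card * n ≤ hBfin.toFinset.card * (2 * S'.card) :=
          Nat.mul_le_mul_left _ hS'c
      _ = 2 * (hBfin.toFinset.card * S'.card) := by ring
      _ ≤ _ := Nat.mul_le_mul_left _ hmany
  rw [Nat.add_mul, one_mul] at h6
  omega

end Pool.Agent.U458.TI
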