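import Pool.Agent.U458.TI.Freiman

/-!
# The rank of the additive relations of an integer sequence

For `t : Fin n → ℕ` the relations are the quadruples with `t i - t j = t k - t l`. The rank is the
dimension of the space of the sequences which satisfy these relations. A sequence of rank `D` has
at least `D n / 14 - 1 / 2` positive differences, and there are at most `n ^ (4 n + D) M ^ D`
sequences of rank `D` with values below `M`.
-/

set_option autoImplicit false

namespace Pool.Agent.U458.TI

open Finset Module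

variable {n : ℕ}

/-- Quadruples of indices. -/
abbrev Quad (n : ℕ) : Type := Fin n × Fin n × Fin n × Fin n

/-- The vector of the relation `x i - x j = x k - x l`. -/
def rel (x : Quad n) : Fin n → ℚ :=
  Pi.single x.1 1 - Pi.single x.2.1 1 - Pi.single x.2.2.1 1 + Pi.single x.2.2.2 1

/-- The relations of `t`. -/
def RelSet (t : Fin n → ℕ) : Set (Quad n) := {x | t x.1 + t x.2.2.2 = t x.2.1 + t x.2.2.1}

/-- The span of the relations of `t`. -/
def R (t : Fin n → ℕ) : Submodule ℚ (Fin n → ℚ) := Submodule.span ℚ (rel '' RelSet t)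

/-- The rank of `t`. -/
noncomputable def rk (t : Fin n → ℕ) : ℕ := finrank ℚ ((Fin n → ℚ) ⧸ R t)

/-- The functional `x ↦ ∑ x i c i`. -/
noncomputable def sg (c : Fin n → ℚ) : (Fin n → ℚ) →ₗ[ℚ] ℚ :=
  ∑ i, c i • LinearMap.proj i

theorem sg_single (c : Fin n → ℚ) (i : Fin n) : sg c (Pi.single i 1) = c i := by
  classical
  unfold sg
  rw [LinearMap.sum_apply, Finset.sum_eq_single i]
  · simp
  · intro j _ hj
    simp [Pi.single_eq_of_ne hj]
  · intro h
    exact absurd (mem_univ i) h

theorem sg_rel (c : Fin n → ℚ) (x : Quad n) :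
    sg c (rel x) = c x.1 - c x.2.1 - c x.2.2.1 + c x.2.2.2 := by
  unfold rel
  rw [map_add, map_sub, map_sub, sg_single, sg_single, sg_single, sg_single]

theorem sg_R (t : Fin n → ℕ) {x : Fin n → ℚ} (hx : x ∈ R t) : sg (fun i => (t i : ℚ)) x = 0 := by
  have : R t ≤ LinearMap.ker (sg fun i => (t i : ℚ)) := by
    apply Submodule.span_le.2
    rintro _ ⟨q, hq, rfl⟩
    rw [SetLike.mem_coe, LinearMap.mem_ker, sg_rel]
    have h : (t q.1 : ℚ) + t q.2.2.2 = t q.2.1 + t q.2.2.1 := by exact_mod_cast hq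
    linarith
  exact this hx

theorem one_R (t : Fin n → ℕ) {x : Fin n → ℚ} (hx : x ∈ R t) : sg (fun _ => 1) x = 0 := by
  have : R t ≤ LinearMap.ker (sg (n := n) fun _ => 1) := by
    apply Submodule.span_le.2
    rintro _ ⟨q, hq, rfl⟩
    rw [SetLike.mem_coe, LinearMap.mem_ker, sg_rel]
    norm_num
  exact this hx

theorem rk_pos (t : Fin n → ℕ) (hn : 0 < n) : 1 ≤ rk t := by
  have h : R t ≠ ⊤ := by
    intro h
    have := one_R t (x := Pi.single ⟨0, hn⟩ 1) (by rw [h]; trivial)
    rw [sg_single] at this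
    exact one_ne_zero this
  have : Nontrivial ((Fin n → ℚ) ⧸ R t) := Submodule.Quotient.nontrivial_iff.2 h
  exact Module.finrank_pos

theorem rk_le (t : Fin n → ℕ) : rk t ≤ n := by
  have := Submodule.finrank_quotient_le (R t)
  rwa [Module.finrank_fin_fun] at this

theorem single_span : Submodule.span ℚ (Set.range fun i : Fin n => (Pi.single i 1 : Fin n → ℚ)) =
    ⊤ := by
  rw [← (Pi.basisFun ℚ (Fin n)).span_eq]
  congr 1
  ext x
  simp

/-- The positive differences. -/
def pd (t : Fin n → ℕ) : Finset ℕ :=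
  (univ.filter fun p : Fin n × Fin n => p.1 < p.2).image fun p => t p.2 - t p.1

theorem rk_le_pd (t : Fin n → ℕ) (ht : StrictMono t) : rk t * n ≤ 7 * (2 * (pd t).card + 1) := by
  classical
  rcases Nat.eq_zero_or_pos n with hn0 | hn0
  · subst hn0
    omega
  have : Nonempty (Fin n × Fin n) := ⟨(⟨0, hn0⟩, ⟨0, hn0⟩)⟩
  set φ : Fin n → ((Fin n → ℚ) ⧸ R t) := fun i => (R t).mkQ (Pi.single i 1) with hφ
  have hkey : ∀ i j k l, φ i - φ j = φ k - φ l ↔ t i + t l = t j + t k := by
    intro i j k l
    constructor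
    · intro h
      have h1 : (Pi.single i 1 - Pi.single j 1 - (Pi.single k 1 - Pi.single l 1) : Fin n → ℚ) ∈
          R t := by
        rw [← Submodule.Quotient.mk_eq_zero, ← Submodule.mkQ_apply]
        rw [map_sub, map_sub, map_sub]
        exact sub_eq_zero.2 h
      have h2 := sg_R t h1
      rw [map_sub, map_sub, map_sub, sg_single, sg_single, sg_single, sg_single] at h2
      have h3 : (t i : ℚ) + t l = t j + t k := by linarith
      exact_mod_cast h3
    · intro h
      have h1 : rel (i, j, k, l) ∈ R t := Submodule.subset_span ⟨(i, j, k, l), h, rfl⟩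
      have h2 : (R t).mkQ (rel (i, j, k, l)) = 0 := by
        rw [Submodule.mkQ_apply, Submodule.Quotient.mk_eq_zero]
        exact h1
      unfold rel at h2
      rw [map_add, map_sub, map_sub] at h2
      have h3 : φ i - φ j - φ k + φ l = 0 := h2
      have h4 : φ i - φ j - (φ k - φ l) = 0 := by rw [← h3]; abel
      exact sub_eq_zero.1 h4
  have hinj : Function.Injective φ := by
    intro i j hij
    have := (hkey i j j j).1 (by rw [hij])
    exact ht.injective (by omega)
  set S := univ.image φ with hS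
  have hSc : S.card = n := by rw [hS, card_image_of_injective _ hinj, card_univ, Fintype.card_fin]
  have hspan : Submodule.span ℚ (S : Set ((Fin n → ℚ) ⧸ R t)) = ⊤ := by
    have h1 : (S : Set ((Fin n → ℚ) ⧸ R t)) =
        (R t).mkQ '' (Set.range fun i : Fin n => (Pi.single i 1 : Fin n → ℚ)) := by
      ext x
      simp [hS, hφ]
    rw [h1, ← Submodule.map_span, single_span, Submodule.map_top, Submodule.range_mkQ]
  have h7 := weak_freiman S
  rw [hspan, finrank_top, hSc] at h7
  have h8 : (dif S S).card ≤ 2 * (pd t).card + 1 := by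
    set D : Finset ℤ := (pd t).image (fun x : ℕ => (x : ℤ)) ∪
      ((pd t).image (fun x : ℕ => -(x : ℤ)) ∪ {0}) with hD
    have h9 : D.card ≤ 2 * (pd t).card + 1 := by
      have e1 := card_union_le ((pd t).image (fun x : ℕ => (x : ℤ)))
        ((pd t).image (fun x : ℕ => -(x : ℤ)) ∪ {0})
      have e2 := card_union_le ((pd t).image (fun x : ℕ => -(x : ℤ))) ({0} : Finset ℤ)
      have e3 : ((pd t).image (fun x : ℕ => (x : ℤ))).card ≤ (pd t).card := card_image_le
      have e4 : ((pd t).image (fun x : ℕ => -(x : ℤ))).card ≤ (pd t).card := card_image_le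
      rw [card_singleton] at e2
      rw [hD]
      omega
    refine le_trans ?_ h9
    have hex : ∀ d ∈ dif S S, ∃ p : Fin n × Fin n, φ p.1 - φ p.2 = d := by
      intro d hd
      obtain ⟨a, ha, b, hb, rfl⟩ := mem_dif.1 hd
      obtain ⟨i, -, rfl⟩ := mem_image.1 ha
      obtain ⟨j, -, rfl⟩ := mem_image.1 hb
      exact ⟨(i, j), rfl⟩
    choose! g hg using hex
    apply card_le_card_of_injOn (fun d => (t (g d).1 : ℤ) - t (g d).2)
    · intro d hd
      rw [mem_coe, hD, mem_union, mem_union]
      rcases lt_trichotomy (g d).1 (g d).2 with h | h | h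
      · right; left
        rw [mem_image]
        refine ⟨t (g d).2 - t (g d).1, ?_, ?_⟩
        · exact mem_image.2 ⟨(g d), by simp [h], rfl⟩
        · have := ht h
          push_cast [Nat.cast_sub this.le]
          ring
      · right; right
        rw [mem_singleton]
        show (t (g d).1 : ℤ) - t (g d).2 = 0
        rw [h, sub_self]
      · left
        rw [mem_image]
        refine ⟨t (g d).1 - t (g d).2, ?_, ?_⟩
        · exact mem_image.2 ⟨((g d).2, (g d).1), by simp [h], rfl⟩
        · have := ht h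
          push_cast [Nat.cast_sub this.le]
          ring
    · intro d hd d' hd' hdd
      have h1 : (t (g d).1 : ℤ) - t (g d).2 = (t (g d').1 : ℤ) - t (g d').2 := hdd
      rw [← hg d hd, ← hg d' hd']
      apply (hkey _ _ _ _).2
      omega
  exact h7.trans (Nat.mul_le_mul_left _ h8)

/-! ### Counting -/

/-- A code of a sequence: `n` relations, `D` indices and the values at these indices. -/
abbrev Code (n D M : ℕ) : Type := (Fin n → Quad n) × (Fin D → Fin n) × (Fin D → Fin M)

theorem exists_code (t : Fin n → ℕ) (hn : 0 < n) :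
    ∃ (Q : Fin n → Quad n) (I : Fin (rk t) → Fin n),
      R t = Submodule.span ℚ (Set.range fun a => rel (Q a)) ∧
      R t ⊔ Submodule.span ℚ (Set.range fun a => (Pi.single (I a) 1 : Fin n → ℚ)) = ⊤ := by
  classical
  -- the relations
  obtain ⟨B, hBsub, hBspan, hBli⟩ := exists_linearIndependent ℚ (rel '' RelSet t)
  have hBfin : B.Finite := hBli.setFinite
  have hBn : hBfin.toFinset.card ≤ n := by
    have := hBfin.fintype
    have h1 := hBli.fintype_card_le_finrank
    rw [Module.finrank_fin_fun] at h1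
    rwa [Set.Finite.card_toFinset]
  obtain ⟨e⟩ : Nonempty (hBfin.toFinset ↪ Fin n) := by
    apply Function.Embedding.nonempty_of_card_le
    simpa using hBn
  have hpre : ∀ β : hBfin.toFinset, ∃ x : Quad n, x ∈ RelSet t ∧ rel x = β := by
    intro β
    obtain ⟨x, hx, hxβ⟩ := hBsub (hBfin.mem_toFinset.1 β.2)
    exact ⟨x, hx, hxβ⟩
  choose h hh using hpre
  set o : Quad n := (⟨0, hn⟩, ⟨0, hn⟩, ⟨0, hn⟩, ⟨0, hn⟩) with ho
  have ho0 : rel o = 0 := by simp [rel, ho]
  set Q : Fin n → Quad n := fun a => if H : ∃ β, e β = a then h H.choose else o with hQ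
  have hQe : ∀ β, Q (e β) = h β := by
    intro β
    have H : ∃ β', e β' = e β := ⟨β, rfl⟩
    have : H.choose = β := e.injective H.choose_spec
    simp only [hQ, dif_pos H, this]
  have hR : R t = Submodule.span ℚ (Set.range fun a => rel (Q a)) := by
    unfold R
    apply le_antisymm
    · rw [← hBspan]
      apply Submodule.span_mono
      intro β hβ
      refine ⟨e ⟨β, hBfin.mem_toFinset.2 hβ⟩, ?_⟩
      show rel (Q (e ⟨β, hBfin.mem_toFinset.2 hβ⟩)) = β
      rw [hQe]
      exact (hh _).2
    · apply Submodule.span_le.2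
      rintro _ ⟨a, rfl⟩
      show rel (Q a) ∈ _
      by_cases H : ∃ β, e β = a
      · obtain ⟨β, rfl⟩ := H
        rw [hQe]
        exact Submodule.subset_span ⟨_, (hh β).1, rfl⟩
      · simp only [hQ, dif_neg H, ho0]
        exact Submodule.zero_mem _
  -- the indices
  obtain ⟨B', hB'sub, hB'span, hB'li⟩ := exists_linearIndependent ℚ
    ((R t).mkQ '' (Set.range fun i : Fin n => (Pi.single i 1 : Fin n → ℚ)))
  have hB'top : Submodule.span ℚ B' = ⊤ := by
    rw [hB'span, ← Submodule.map_span, single_span, Submodule.map_top, Submodule.range_mkQ]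
  have hB'fin : B'.Finite := hB'li.setFinite
  have := hB'fin.fintype
  have hB'c : Fintype.card B' = rk t := by
    have h1 := finrank_span_set_eq_card hB'li
    rw [hB'top, finrank_top] at h1
    unfold rk
    rw [h1, Set.toFinset_card]
  obtain ⟨e'⟩ : Nonempty (Fin (rk t) ≃ B') := ⟨(Fintype.equivFinOfCardEq hB'c).symm⟩
  have hpre' : ∀ β : B', ∃ i : Fin n, (R t).mkQ (Pi.single i 1) = β := by
    intro β
    obtain ⟨_, ⟨i, rfl⟩, hi⟩ := hB'sub β.2
    exact ⟨i, hi⟩
  choose h' hh' using hpre'
  refine ⟨Q, fun a => h' (e' a), hR, ?_⟩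
  rw [eq_top_iff]
  intro x _
  have h1 : (R t).mkQ x ∈ Submodule.span ℚ B' := by rw [hB'top]; trivial
  have h2 : Submodule.span ℚ B' ≤ (Submodule.span ℚ (Set.range fun a =>
      (Pi.single (h' (e' a)) 1 : Fin n → ℚ))).map (R t).mkQ := by
    rw [Submodule.map_span]
    apply Submodule.span_mono
    intro β hβ
    refine ⟨_, ⟨e'.symm ⟨β, hβ⟩, rfl⟩, ?_⟩
    simp only [Equiv.apply_symm_apply]
    exact hh' _
  obtain ⟨y, hy, hy2⟩ := h2 h1
  have h3 : x - y ∈ R t := by
    rw [Submodule.mkQ_apply, Submodule.mkQ_apply] at hy2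
    exact (Submodule.Quotient.eq _).1 hy2.symm
  have := Submodule.add_mem_sup h3 hy
  rwa [sub_add_cancel] at this

theorem code_inj (t t' : Fin n → ℕ) (hR : R t = R t') {ι : Type*} (I : ι → Fin n)
    (hI : R t ⊔ Submodule.span ℚ (Set.range fun a => (Pi.single (I a) 1 : Fin n → ℚ)) = ⊤)
    (hv : ∀ a, t (I a) = t' (I a)) : t = t' := by
  classical
  set τ := sg (fun i => (t i : ℚ)) - sg (fun i => (t' i : ℚ)) with hτ
  have h1 : R t ⊔ Submodule.span ℚ (Set.range fun a => (Pi.single (I a) 1 : Fin n → ℚ)) ≤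
      LinearMap.ker τ := by
    apply sup_le
    · intro x hx
      rw [LinearMap.mem_ker, hτ, LinearMap.sub_apply, sg_R t hx, sg_R t' (hR ▸ hx), sub_zero]
    · apply Submodule.span_le.2
      rintro _ ⟨a, rfl⟩
      rw [SetLike.mem_coe, LinearMap.mem_ker, hτ, LinearMap.sub_apply, sg_single, sg_single, hv a,
        sub_self]
  funext i
  have h2 : (Pi.single i 1 : Fin n → ℚ) ∈ LinearMap.ker τ := h1 (by rw [hI]; trivial)
  rw [LinearMap.mem_ker, hτ, LinearMap.sub_apply, sg_single, sg_single] at h2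
  have : (t i : ℚ) = t' i := by linarith
  exact_mod_cast this

open Classical in
/-- The number of sequences of rank `D` with values below `M`. -/
theorem card_rk (n D M : ℕ) (hn : 0 < n) :
    (univ.filter fun t : Fin n → Fin M => rk (fun i => (t i : ℕ)) = D).card ≤
      (n ^ 4) ^ n * (n ^ D * M ^ D) := by
  have hex : ∀ t : Fin n → Fin M, ∃ x : Code n D M, rk (fun i => (t i : ℕ)) = D →
      R (fun i => (t i : ℕ)) = Submodule.span ℚ (Set.range fun a => rel (x.1 a)) ∧
      R (fun i => (t i : ℕ)) ⊔ Submodule.span ℚ (Set.range fun a =>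
        (Pi.single (x.2.1 a) 1 : Fin n → ℚ)) = ⊤ ∧ ∀ a, x.2.2 a = t (x.2.1 a) := by
    intro t
    by_cases h : rk (fun i => (t i : ℕ)) = D
    · obtain ⟨Q, I, h1, h2⟩ := exists_code (fun i => (t i : ℕ)) hn
      subst h
      exact ⟨(Q, I, fun a => t (I a)), fun _ => ⟨h1, h2, fun _ => rfl⟩⟩
    · rcases Nat.eq_zero_or_pos D with hD | hD
      · subst hD
        exact ⟨(fun _ => (⟨0, hn⟩, ⟨0, hn⟩, ⟨0, hn⟩, ⟨0, hn⟩), Fin.elim0, Fin.elim0),
          fun h' => absurd h' h⟩
      · exact ⟨(fun _ => (⟨0, hn⟩, ⟨0, hn⟩, ⟨0, hn⟩, ⟨0, hn⟩), fun _ => ⟨0, hn⟩,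
          fun _ => t ⟨0, hn⟩), fun h' => absurd h' h⟩
  choose g hg using hex
  have hcard : Fintype.card (Code n D M) = (n ^ 4) ^ n * (n ^ D * M ^ D) := by
    simp only [Fintype.card_prod, Fintype.card_fun, Fintype.card_fin]
    congr 2
    ring
  rw [← hcard, ← card_univ]
  apply card_le_card_of_injOn g (fun _ _ => mem_coe.2 (mem_univ _))
  intro t ht t' ht' htt
  have h1 := hg t (mem_filter.1 (mem_coe.1 ht)).2
  have h2 := hg t' (mem_filter.1 (mem_coe.1 ht')).2
  rw [← htt] at h2
  have h3 := code_inj (fun i => (t i : ℕ)) (fun i => (t' i : ℕ)) (h1.1.trans h2.1.symm)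
    (g t).2.1 h1.2.1 (fun a => by rw [← h1.2.2 a, ← h2.2.2 a])
  funext i
  exact Fin.ext (congrFun h3 i)

end Pool.Agent.U458.TI
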